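import Mathlib

set_option autoImplicit false

/-!
# Random sets which hit small intervals with small probability: Hausdorff measure of the
intersection with a fixed set (project BC, for [DU])
-/

namespace Pool.Agent.Helper30K9.BC

open MeasureTheory Filter Topology Set
open scoped ENNReal NNReal

/-- a cover of a null set by intervals with positive radii -/
theorem exists_cover {S : Set ℝ} {s : ℝ} (hs : 0 < s) (h : μH[s] S = 0) {e ρ : ℝ} (he : 0 < e)
    (hρ : 0 < ρ) : ∃ (x : ℕ → ℝ) (r : ℕ → ℝ) (J : Set ℕ), (∀ j ∈ J, x j ∈ S) ∧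
      (∀ j, 0 < r j ∧ r j ≤ ρ) ∧ (∀ y ∈ S, ∃ j ∈ J, |y - x j| ≤ r j) ∧
      ∑' j, ENNReal.ofReal (r j ^ s) ≤ ENNReal.ofReal e := by
  rw [Measure.hausdorffMeasure_apply] at h
  have h1 : ⨅ (t : ℕ → Set ℝ) (_ : S ⊆ ⋃ n, t n)
      (_ : ∀ n, Metric.ediam (t n) ≤ ENNReal.ofReal (ρ / 2)),
      ∑' n, ⨆ _ : (t n).Nonempty, Metric.ediam (t n) ^ s = 0 := by
    have h2 := ENNReal.iSup_eq_zero.1 h (ENNReal.ofReal (ρ / 2))
    exact ENNReal.iSup_eq_zero.1 h2 (ENNReal.ofReal_pos.2 (by positivity))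
  have h3 : ⨅ (t : ℕ → Set ℝ) (_ : S ⊆ ⋃ n, t n)
      (_ : ∀ n, Metric.ediam (t n) ≤ ENNReal.ofReal (ρ / 2)),
      ∑' n, ⨆ _ : (t n).Nonempty, Metric.ediam (t n) ^ s < ENNReal.ofReal (e / 2) := by
    rw [h1]
    exact ENNReal.ofReal_pos.2 (by positivity)
  simp only [iInf_lt_iff] at h3
  obtain ⟨t, ht1, ht2, ht3⟩ := h3
  -- the diameters
  set d : ℕ → ℝ := fun n => (Metric.ediam (t n)).toReal with hd
  have hfin : ∀ n, Metric.ediam (t n) ≠ ∞ := fun n =>
    ne_top_of_le_ne_top ENNReal.ofReal_ne_top (ht2 n)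
  have hd0 : ∀ n, 0 ≤ d n := fun n => ENNReal.toReal_nonneg
  have hdρ : ∀ n, d n ≤ ρ / 2 := fun n =>
    ENNReal.toReal_le_of_le_ofReal (by positivity) (ht2 n)
  have hded : ∀ n, ENNReal.ofReal (d n) = Metric.ediam (t n) := fun n =>
    ENNReal.ofReal_toReal (hfin n)
  -- enlarge the radii
  have hη : ∀ n, ∃ η : ℝ, 0 < η ∧ η ≤ ρ / 2 ∧
      (d n + η) ^ s ≤ d n ^ s + e / 2 / 2 ^ (n + 1) := by
    intro n
    have hc : ContinuousAt (fun η : ℝ => (d n + η) ^ s) 0 := by
      apply ContinuousAt.rpow_const (by fun_prop)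
      right; exact hs.le
    have h4 : ∀ᶠ η in 𝓝 (0 : ℝ), (d n + η) ^ s < d n ^ s + e / 2 / 2 ^ (n + 1) := by
      apply hc.eventually_lt_const
      show (d n + 0) ^ s < _
      rw [add_zero]
      have : 0 < e / 2 / 2 ^ (n + 1) := by positivity
      linarith
    obtain ⟨δ, hδ, hδ2⟩ := Metric.eventually_nhds_iff.1 h4
    refine ⟨min (δ / 2) (ρ / 2), by positivity, min_le_right _ _, ?_⟩
    apply (hδ2 _).le
    rw [Real.dist_eq, sub_zero, abs_of_pos (by positivity)]
    exact lt_of_le_of_lt (min_le_left _ _) (by linarith)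
  choose η hη0 hηρ hη2 using hη
  classical
  set J : Set ℕ := {j | (t j ∩ S).Nonempty} with hJ
  set x : ℕ → ℝ := fun j => if hj : (t j ∩ S).Nonempty then hj.choose else 0 with hx
  have hxm : ∀ j ∈ J, x j ∈ t j ∧ x j ∈ S := by
    intro j hj
    have hj' : (t j ∩ S).Nonempty := hj
    simp only [hx]
    rw [dif_pos hj']
    exact hj'.choose_spec
  refine ⟨x, fun j => if j ∈ J then d j + η j else min ρ (min 1 (e / 2 / 2 ^ (j + 1)) ^ (1 / s)),
    J, fun j hj => (hxm j hj).2, ?_, ?_, ?_⟩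
  · intro j
    dsimp only
    split_ifs
    · exact ⟨by linarith [hd0 j, hη0 j], by linarith [hdρ j, hηρ j]⟩
    · refine ⟨lt_min hρ (by positivity), min_le_left _ _⟩
  · intro y hy
    obtain ⟨j, hj⟩ := mem_iUnion.1 (ht1 hy)
    have hjJ : j ∈ J := ⟨y, hj, hy⟩
    refine ⟨j, hjJ, ?_⟩
    dsimp only
    rw [if_pos hjJ]
    have h5 : edist y (x j) ≤ Metric.ediam (t j) := Metric.edist_le_ediam_of_mem hj (hxm j hjJ).1
    rw [← hded, edist_dist, ENNReal.ofReal_le_ofReal_iff (hd0 j), Real.dist_eq] at h5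
    linarith [hη0 j]
  · have hterm : ∀ j, ENNReal.ofReal ((if j ∈ J then d j + η j else
        min ρ (min 1 (e / 2 / 2 ^ (j + 1)) ^ (1 / s))) ^ s) ≤
        (⨆ _ : (t j).Nonempty, Metric.ediam (t j) ^ s) + ENNReal.ofReal (e / 2 / 2 ^ (j + 1)) := by
      intro j
      split_ifs with hj
      · have hne : (t j).Nonempty := by
          obtain ⟨y, hy, -⟩ : (t j ∩ S).Nonempty := hj
          exact ⟨y, hy⟩
        rw [iSup_pos hne]
        refine (ENNReal.ofReal_le_ofReal (hη2 j)).trans ?_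
        rw [ENNReal.ofReal_add (by have := hd0 j; positivity) (by positivity),
          ← ENNReal.ofReal_rpow_of_nonneg (hd0 j) hs.le, hded]
      · refine le_trans ?_ le_add_self
        apply ENNReal.ofReal_le_ofReal
        calc (min ρ (min 1 (e / 2 / 2 ^ (j + 1)) ^ (1 / s))) ^ s
            ≤ (min 1 (e / 2 / 2 ^ (j + 1)) ^ (1 / s)) ^ s := by
              apply Real.rpow_le_rpow _ (min_le_right _ _) hs.le
              exact le_min hρ.le (by positivity)
          _ = min 1 (e / 2 / 2 ^ (j + 1)) := by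
              rw [← Real.rpow_mul (by positivity), one_div_mul_cancel hs.ne', Real.rpow_one]
          _ ≤ _ := min_le_right _ _
    refine (ENNReal.tsum_le_tsum hterm).trans ?_
    rw [ENNReal.tsum_add]
    have h6 : ∑' j : ℕ, ENNReal.ofReal (e / 2 / 2 ^ (j + 1)) = ENNReal.ofReal (e / 2) := by
      rw [← ENNReal.ofReal_tsum_of_nonneg (fun j => by positivity)]
      · congr 1
        have h7 : ∀ j : ℕ, e / 2 / 2 ^ (j + 1) = e / 2 / 2 / 2 ^ j := by
          intro j
          rw [pow_succ]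
          field_simp
        simp_rw [h7]
        exact tsum_geometric_two' (e / 2)
      · have h7 : ∀ j : ℕ, e / 2 / 2 ^ (j + 1) = e / 2 / 2 / 2 ^ j := by
          intro j
          rw [pow_succ]
          field_simp
        simp_rw [h7]
        exact summable_geometric_two' (e / 2)
    rw [h6]
    calc (∑' n, ⨆ _ : (t n).Nonempty, Metric.ediam (t n) ^ s) + ENNReal.ofReal (e / 2)
        ≤ ENNReal.ofReal (e / 2) + ENNReal.ofReal (e / 2) := by gcongr
      _ = ENNReal.ofReal e := by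
          rw [← ENNReal.ofReal_add (by positivity) (by positivity)]
          congr 1; ring

/-- A random set which hits every interval of radius `r ≤ ρ` around a point of `S` with
probability at most `C r^(1/3)`. -/
theorem ae_null {Ω : Type*} [MeasurableSpace Ω] (μ : Measure Ω) (Tc : Ω → Set ℝ) (S : Set ℝ)
    (s C ρ : ℝ) (hs : 1 / 3 ≤ s) (hC : 0 < C) (hρ : 0 < ρ)
    (hm : ∀ x r : ℝ, MeasurableSet {K | (Tc K ∩ Icc (x - r) (x + r)).Nonempty})
    (hb : ∀ x ∈ S, ∀ r : ℝ, 0 < r → r ≤ ρ →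
      μ {K | (Tc K ∩ Icc (x - r) (x + r)).Nonempty} ≤ ENNReal.ofReal (C * r ^ ((1 : ℝ) / 3)))
    (hS : μH[s] S = 0) :
    ∀ᵐ K ∂μ, μH[s - 1 / 3] (Tc K ∩ S) = 0 := by
  have hs0 : 0 < s := by linarith
  have hcov := fun n : ℕ => exists_cover hs0 hS (e := (1 / 2 : ℝ) ^ n) (ρ := min ρ ((1 / 2) ^ n))
    (by positivity) (by positivity)
  choose x r J hxS hr hcov hsum using hcov
  classical
  set O : ℕ → ℕ → Set Ω := fun n j =>
    if j ∈ J n then {K | (Tc K ∩ Icc (x n j - r n j) (x n j + r n j)).Nonempty} else ∅ with hO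
  have hOm : ∀ n j, MeasurableSet (O n j) := by
    intro n j
    simp only [hO]
    split_ifs
    · exact hm _ _
    · exact MeasurableSet.empty
  have hOμ : ∀ n j, μ (O n j) ≤ ENNReal.ofReal (C * r n j ^ ((1 : ℝ) / 3)) := by
    intro n j
    simp only [hO]
    split_ifs with h
    · exact hb _ (hxS n j h) _ (hr n j).1 ((hr n j).2.trans (min_le_left _ _))
    · simp
  set g : ℕ → Ω → ℝ≥0∞ := fun n K =>
    ∑' j, (O n j).indicator (fun _ => ENNReal.ofReal (r n j ^ (s - 1 / 3))) K with hg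
  have hgm : ∀ n, Measurable (g n) := by
    intro n
    exact Measurable.tsum fun j => measurable_const.indicator (hOm n j)
  have hgint : ∀ n, ∫⁻ K, g n K ∂μ ≤ ENNReal.ofReal (C * (1 / 2 : ℝ) ^ n) := by
    intro n
    simp only [hg]
    rw [lintegral_tsum fun j => (measurable_const.indicator (hOm n j)).aemeasurable]
    have h1 : ∀ j, ∫⁻ K, (O n j).indicator (fun _ => ENNReal.ofReal (r n j ^ (s - 1 / 3))) K ∂μ ≤
        ENNReal.ofReal C * ENNReal.ofReal (r n j ^ s) := by
      intro j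
      have hr0 := (hr n j).1
      rw [lintegral_indicator_const (hOm n j)]
      refine (mul_le_mul_right (hOμ n j) _).trans ?_
      rw [← ENNReal.ofReal_mul (by positivity), ← ENNReal.ofReal_mul hC.le]
      apply ENNReal.ofReal_le_ofReal
      have h2 : r n j ^ s = r n j ^ (s - 1 / 3) * r n j ^ ((1 : ℝ) / 3) := by
        rw [← Real.rpow_add hr0]; congr 1; ring
      rw [h2]
      exact le_of_eq (by ring)
    refine (ENNReal.tsum_le_tsum h1).trans ?_
    rw [ENNReal.tsum_mul_left, ENNReal.ofReal_mul hC.le]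
    exact mul_le_mul_right (hsum n) _
  have hlim0 : Tendsto (fun n : ℕ => (1 / 2 : ℝ) ^ n) atTop (𝓝 0) :=
    tendsto_pow_atTop_nhds_zero_of_lt_one (by norm_num) (by norm_num)
  have hlimg : Tendsto (fun n => ∫⁻ K, g n K ∂μ) atTop (𝓝 0) := by
    have h1 : Tendsto (fun n : ℕ => ENNReal.ofReal (C * (1 / 2 : ℝ) ^ n)) atTop (𝓝 0) := by
      rw [← ENNReal.ofReal_zero]
      apply ENNReal.tendsto_ofReal
      have := hlim0.const_mul C
      rwa [mul_zero] at this
    exact tendsto_of_tendsto_of_tendsto_of_le_of_le tendsto_const_nhds h1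
      (fun _ => bot_le) hgint
  have hfatou : ∫⁻ K, liminf (fun n => g n K) atTop ∂μ = 0 := by
    have := lintegral_liminf_le (u := atTop) (μ := μ) hgm
    rw [hlimg.liminf_eq] at this
    exact le_antisymm this bot_le
  rw [lintegral_eq_zero_iff (Measurable.liminf hgm)] at hfatou
  filter_upwards [hfatou] with K hK
  have hK' : liminf (fun n => g n K) atTop = 0 := hK
  set q : ℝ := s - 1 / 3 with hq
  have hq0 : 0 ≤ q := by rw [hq]; linarith
  have key := Measure.hausdorffMeasure_le_liminf_tsum (X := ℝ)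
    (ι := fun n => {j : ℕ // K ∈ O n j}) q (Tc K ∩ S)
    (l := atTop) (fun n : ℕ => ENNReal.ofReal (2 * (1 / 2 : ℝ) ^ n))
    (by
      rw [← ENNReal.ofReal_zero]
      apply ENNReal.tendsto_ofReal
      have := hlim0.const_mul 2
      rwa [mul_zero] at this)
    (fun n j => Icc (x n j - r n j) (x n j + r n j))
    (by
      apply Eventually.of_forall
      intro n j
      rw [Real.ediam_Icc]
      apply ENNReal.ofReal_le_ofReal
      have := (hr n j).2.trans (min_le_right _ _)
      linarith)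
    (by
      apply Eventually.of_forall
      intro n y hy
      obtain ⟨j, hj, hyj⟩ := hcov n y hy.2
      rw [abs_le] at hyj
      have hmem : y ∈ Icc (x n j - r n j) (x n j + r n j) :=
        ⟨by linarith [hyj.1], by linarith [hyj.2]⟩
      rw [mem_iUnion]
      refine ⟨⟨j, ?_⟩, hmem⟩
      simp only [hO]
      rw [if_pos hj]
      exact ⟨y, hy.1, hmem⟩)
  refine le_antisymm (key.trans ?_) bot_le
  have h2 : ∀ n, ∑' j : {j : ℕ // K ∈ O n j},
      Metric.ediam (Icc (x n j - r n j) (x n j + r n j)) ^ q ≤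
      ENNReal.ofReal (2 ^ q) * g n K := by
    intro n
    simp only [hg]
    rw [← ENNReal.tsum_mul_left]
    have h3 : ∀ j : ℕ, ENNReal.ofReal (2 ^ q) *
        (O n j).indicator (fun _ => ENNReal.ofReal (r n j ^ q)) K =
        Set.indicator {j | K ∈ O n j}
          (fun j => Metric.ediam (Icc (x n j - r n j) (x n j + r n j)) ^ q) j := by
      intro j
      have hr0 := (hr n j).1
      by_cases h : K ∈ O n j
      · rw [Set.indicator_of_mem h, Set.indicator_of_mem (show j ∈ {j | K ∈ O n j} from h),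
          Real.ediam_Icc, ← ENNReal.ofReal_mul (by positivity),
          ENNReal.ofReal_rpow_of_pos (by linarith)]
        congr 1
        rw [show x n j + r n j - (x n j - r n j) = 2 * r n j by ring,
          Real.mul_rpow (by norm_num) hr0.le]
      · rw [Set.indicator_of_notMem h,
          Set.indicator_of_notMem (show j ∉ {j | K ∈ O n j} from h), mul_zero]
    simp_rw [h3]
    rw [← tsum_subtype]
    exact le_rfl
  calc liminf (fun n => ∑' j : {j : ℕ // K ∈ O n j},
        Metric.ediam (Icc (x n j - r n j) (x n j + r n j)) ^ q) atTop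
      ≤ liminf (fun n => ENNReal.ofReal (2 ^ q) * g n K) atTop :=
        liminf_le_liminf (Eventually.of_forall h2)
    _ = ENNReal.ofReal (2 ^ q) * liminf (fun n => g n K) atTop :=
        ENNReal.liminf_const_mul_of_ne_top ENNReal.ofReal_ne_top
    _ = 0 := by rw [hK', mul_zero]

end Pool.Agent.Helper30K9.BC
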