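import Pool.Agent.Helper77K9.BC.Stm
import Pool.Agent.Helper30K9.BC.Cov

set_option autoImplicit false

/-!
# [DU] (project BC)
-/

namespace Pool.Agent.Helper30K9.BC

open H973 H974 H934E Finset MeasureTheory TopologicalSpace Filter Topology
open scoped ENNReal
open Pool.Agent.Helper77K9.BC

theorem meas_HI (x r : ℝ) : MeasurableSet (Rect.HI x r) := by
  rw [Rect.HI_eq]
  apply MeasurableSet.iInter
  intro n
  exact (NonemptyCompacts.isClosed_inter_nonempty_of_isClosed (Rect.isClosed_NI _ _ _)).measurableSet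

/-- [DU] -/
theorem du : S_DU := by
  intro R δ hδ hlim μ hμ S s hs hS h0
  obtain ⟨c, C, hc, hC, hHI⟩ := Rect.HI_bounds
  have hpiece : ∀ n : ℕ, ∀ᵐ K ∂(μ : Measure (NonemptyCompacts ℂ)),
      μH[s - 1 / 3] (touch K ∩ (S ∩ Set.Ici (1 / ((n : ℝ) + 1)))) = 0 := by
    intro n
    have hn : (0 : ℝ) < 1 / ((n : ℝ) + 1) := by positivity
    apply ae_null (μ : Measure (NonemptyCompacts ℂ)) touch (S ∩ Set.Ici (1 / ((n : ℝ) + 1))) s
      (C * ((n : ℝ) + 1) ^ ((1 : ℝ) / 3)) (1 / ((n : ℝ) + 1)) hs (by positivity) hn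
      (fun x r => meas_HI x r)
    · intro x hx r hr hrn
      have hx1 : 1 / ((n : ℝ) + 1) ≤ x := hx.2
      have hx0 : 0 < x := hn.trans_le hx1
      have hx2 : x ≤ R.L0 / 16 := (hS hx.1).2
      have h1 := (hHI R hδ hlim hμ x r hr (hrn.trans hx1) (by linarith [R.L0_pos])).2
      refine h1.trans ?_
      apply ENNReal.ofReal_le_ofReal
      rw [mul_assoc]
      apply mul_le_mul_of_nonneg_left _ hC.le
      rw [← Real.mul_rpow (by positivity) hr.le]
      apply Real.rpow_le_rpow (by positivity) _ (by norm_num)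
      rw [div_le_iff₀ hx0]
      rw [div_le_iff₀ (by positivity)] at hx1
      nlinarith
    · exact measure_mono_null Set.inter_subset_left h0
  filter_upwards [ae_all_iff.mpr hpiece] with K hK
  have hsub : touch K ∩ S ⊆ ⋃ n : ℕ, touch K ∩ (S ∩ Set.Ici (1 / ((n : ℝ) + 1))) := by
    rintro y ⟨hy1, hy2⟩
    obtain ⟨n, hn⟩ := exists_nat_one_div_lt (hS hy2).1
    exact Set.mem_iUnion.2 ⟨n, hy1, hy2, hn.le⟩
  exact measure_mono_null hsub (measure_iUnion_null hK)

end Pool.Agent.Helper30K9.BC
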